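import Pool.Agent.Q223.TW.RedL

/-!
# Poles and Bernstein-Sato roots: reduction to trilinear germs with mild singularities

A *program* consists of a forest on the nodes `0, …, κ - 1` (`o m` is the parent of the node `m`, and
comes before `m`; `o m = none` for the roots), of a label `v m ∈ {1, …, n}` for every node and of a
coefficient `c m`. Its local polynomial is

`F = ∑_m c_m z_(o m) x_(v m) + ∑_m y_m (z_m - z_(o m) x_(v m))`  (with `z_none = 1`).

It is linear in each of the three groups of variables `x`, `y`, `z`, vanishes at the origin, and has at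
most three monomials per node. The question whether the poles of the local topological zeta function
at the origin are roots of the local Bernstein-Sato polynomial, for all polynomials `f ≠ 0` with
`f(0) = 0`, is equivalent to its case of the local polynomials of programs whose minimal exponent at the
origin is larger than any given `N`. If the coefficients of `f` are in the additive group generated by a
set `S` (which contains `1`), the coefficients `c_m` can be taken from `S ∪ -S ∪ {0}`.

Method. Horner's scheme of `f` along a forest gives an automorphism of the polynomial ring, which fixes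
the origin and takes `f(x) + ∑ y_m z_m` to `F`, and there are such schemes for every large number `κ` of
nodes. The addition of a plane `y z` shifts the roots of `b_f(s) / (s + 1)` by `-1`, also for the local
Bernstein-Sato polynomial at the origin. We compute the classes of the jets at the origin for `f + y z`;
with `Z(s)` the local topological zeta function of `f` at the origin, the one of `f + y z` is

`Z(s + 1) + (1 - Z(s + 1)) / (s + 1) ^ 2 = Z(s + 1) s (s + 2) / (s + 1) ^ 2 + 1 / (s + 1) ^ 2`,

so that the poles are shifted by `-1`, apart from `-1` and the integers `≥ 0`.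
-/

set_option autoImplicit false

namespace Pool.Agent.Results.MP_6163c8_ag.TrilinearGerms

open MvPolynomial Pool.Agent.Q223.MM Pool.Agent.Q223.TW Pool.Agent.TH192.MU
open Pool.Agent.W428.MOT (MK Lu)

/-- **Q1 for the germs of polynomials is equivalent to its case of the trilinear germs of programs with
minimal exponent larger than `N`.**

`StrongL E ε f`: every pole `s₀ ≠ 0` of the local topological zeta function of `f` at the origin
(`IsTopZeta E ε (zetaO f) Z`) is a root of every `b` with `b(s) f ^ s = P(s) f ^ (s + 1)`, where `P(s)` is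
a polynomial in `s` whose coefficients are differential operators with (formal) power series
coefficients; in particular it is a root of the local Bernstein-Sato polynomial. (The poles of the
topological zeta function are negative numbers.)
`MinExpL N F`: there is `c ≠ 0` such that `(s + 1) c(s)` satisfies such a functional equation for `F` and
all roots of `c` have real part `< -N`; so the minimal exponent of `F` at the origin is larger than `N`.

`Forest o`: `o m = some m'` implies `m' < m`. `progL o v c` is the polynomial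
`∑ c_m z_(o m) x_(v m) + ∑ y_m (z_m - z_(o m) x_(v m))`, `z_none = 1`. `t ∈ coeffs S`: `t = 0` or `t ∈ S`
or `-t ∈ S`.

First part: for every `f` and `N` there are programs with all large numbers of nodes `κ`, whose
polynomials have minimal exponent larger than `N` at the origin, such that for all realisations
`(E, ε)` the statement Q1 for one of them implies the statement for `f`.
Second part: the equivalence. -/
theorem result (S : Set ℂ) (hS : (1 : ℂ) ∈ AddSubgroup.closure S) (N : ℕ) :
    (∀ (n : ℕ) (f : MvPolynomial (Fin n) ℂ), f ≠ 0 → eval 0 f = 0 →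
      (∀ d, coeff d f ∈ AddSubgroup.closure S) →
      ∃ κ₁ : ℕ, ∀ κ, κ₁ ≤ κ → ∃ (o : Fin κ → Option (Fin κ)) (v : Fin κ → Fin n)
        (c : Fin κ → ℂ), Forest o ∧ (∀ m, c m ∈ coeffs S) ∧ MinExpL N (progL o v c) ∧
        ∀ (R : Type) [CommRing R] [IsDomain R] (E : MK ℂ →+* R) (ε : R →+* ℂ),
          ε (E ((Lu ℂ : (MK ℂ)ˣ) : MK ℂ)) = 1 → E ((Lu ℂ : (MK ℂ)ˣ) : MK ℂ) ≠ 1 →
          StrongL E ε (progL o v c) → StrongL E ε f) ∧
    ∀ (R : Type) [CommRing R] [IsDomain R] (E : MK ℂ →+* R) (ε : R →+* ℂ),
      ε (E ((Lu ℂ : (MK ℂ)ˣ) : MK ℂ)) = 1 → E ((Lu ℂ : (MK ℂ)ˣ) : MK ℂ) ≠ 1 →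
      ((∀ (n : ℕ) (f : MvPolynomial (Fin n) ℂ), f ≠ 0 → eval 0 f = 0 →
          (∀ d, coeff d f ∈ AddSubgroup.closure S) → StrongL E ε f) ↔
        ∀ (n κ : ℕ) (o : Fin κ → Option (Fin κ)) (v : Fin κ → Fin n) (c : Fin κ → ℂ), 0 < κ →
          Forest o → (∀ m, c m ∈ coeffs S) → MinExpL N (progL o v c) →
          StrongL E ε (progL o v c)) := by
  have key : ∀ (n : ℕ) (f : MvPolynomial (Fin n) ℂ), f ≠ 0 → eval 0 f = 0 →
      (∀ d, coeff d f ∈ AddSubgroup.closure S) →
      ∃ κ₁ : ℕ, ∀ κ, κ₁ ≤ κ → ∃ (o : Fin κ → Option (Fin κ)) (v : Fin κ → Fin n)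
        (c : Fin κ → ℂ), Forest o ∧ (∀ m, c m ∈ coeffs S) ∧ MinExpL N (progL o v c) ∧
        ∀ (R : Type) [CommRing R] [IsDomain R] (E : MK ℂ →+* R) (ε : R →+* ℂ),
          ε (E ((Lu ℂ : (MK ℂ)ˣ) : MK ℂ)) = 1 → E ((Lu ℂ : (MK ℂ)ˣ) : MK ℂ) ≠ 1 →
          StrongL E ε (progL o v c) → StrongL E ε f := by
    intro n f hf h0 hfS
    have h0' : coeff 0 f = 0 := by
      rw [← constantCoeff_eq, ← eval_zero]
      exact h0
    obtain ⟨κ₁, h⟩ := reduceL S hS N n f hf h0' hfS
    refine ⟨κ₁, fun κ hκ => ?_⟩
    obtain ⟨o, v, c, ho, hc, hm, h2⟩ := h κ hκ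
    exact ⟨o, v, c, ho, hc, hm, fun R _ _ E ε h1 hu => (h2 R E ε h1 hu).2⟩
  refine ⟨key, ?_⟩
  intro R _ _ E ε h1 hu
  constructor
  · intro h n κ o v c hκ _ hc _
    refine h _ (progL o v c) (progL_ne o v c hκ) ?_ fun d => progL_coeff hS o v c hc d
    have h2 := progL_zero o v c
    rw [← constantCoeff_eq, ← eval_zero] at h2
    exact h2
  · intro h n f hf h0 hfS
    obtain ⟨κ₁, h2⟩ := key n f hf h0 hfS
    obtain ⟨o, v, c, ho, hc, hm, h3⟩ := h2 (κ₁ + 1) (Nat.le_succ κ₁)
    exact h3 R E ε h1 hu (h n (κ₁ + 1) o v c (Nat.succ_pos κ₁) ho hc hm)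

end Pool.Agent.Results.MP_6163c8_ag.TrilinearGerms
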